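import Pool.Agent.H61.GB.Five

set_option autoImplicit false

/-!
# The conjecture of Ben Efraim up to the factor 11/12

`low_eleven`: for every `n` and every set `A` of less than `(n-1)!` permutations,
`11 |∂L| ≤ 12 |∂A|`; `eleven_of`: the same for every set if `|∂L| ≤ |∂A| + (n-2) (n-2)! / 4`.
-/

open Finset Equiv Pool.H60.Transp Pool.H60.NM

namespace Pool.H61.GB

variable {n : ℕ}

/-- the segment and the lower bound on the level of `m` -/
theorem seg_core {m : ℕ} (hm0 : 0 < m) (hm : m < n.factorial) : ∃ (k c : ℕ) (y : ℝ), 1 ≤ k ∧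
    k + 1 ≤ n ∧ k.factorial ≤ m ∧ 1 ≤ c ∧ c ≤ k ∧ 0 ≤ y ∧ y ≤ 1 ∧
    (m : ℝ) * ((n.choose 2 : ℝ) - (k.choose 2 : ℝ) + 1) - (m : ℝ) ^ 2 / (k.factorial : ℝ) =
      (k.factorial : ℝ) * (((c : ℝ) + y) * ((n.choose 2 : ℝ) - (k.choose 2 : ℝ) + 1 - ((c : ℝ) + y))) ∧
    (bd (lexInit n m) : ℝ) ≤
      (m : ℝ) * ((n.choose 2 : ℝ) - (k.choose 2 : ℝ) + 1) - (m : ℝ) ^ 2 / (k.factorial : ℝ) +
      (k.factorial : ℝ) * (((k : ℝ) - 1) * (y * (1 - y)) + ((k : ℝ) - 1) / (4 * k)) := by
  classical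
  -- the level
  obtain ⟨k, hk, hkm, hmk⟩ : ∃ k : ℕ, 1 ≤ k ∧ k.factorial ≤ m ∧ m < (k + 1).factorial := by
    have hex : ∃ j : ℕ, m < (j + 1).factorial :=
      ⟨m, lt_of_lt_of_le (Nat.lt_succ_self m) (Nat.self_le_factorial (m + 1))⟩
    have h1 := Nat.find_spec hex
    have h2 : 1 ≤ Nat.find hex := by
      by_contra hcon
      have h3 : Nat.find hex = 0 := by omega
      rw [h3, zero_add, Nat.factorial_one] at h1
      omega
    refine ⟨Nat.find hex, h2, ?_, h1⟩
    have h3 := Nat.find_min hex (show Nat.find hex - 1 < Nat.find hex by omega)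
    rw [Nat.sub_add_cancel h2] at h3
    omega
  have hkn : k + 1 ≤ n := by
    by_contra hcon
    have h1 : n.factorial ≤ k.factorial := Nat.factorial_le (by omega)
    omega
  have hf : 0 < k.factorial := Nat.factorial_pos k
  obtain ⟨c, r, hc1, hck, hr, rfl⟩ : ∃ c r : ℕ, 1 ≤ c ∧ c ≤ k ∧ r < k.factorial ∧
      m = c * k.factorial + r := by
    refine ⟨m / k.factorial, m % k.factorial, (Nat.one_le_div_iff hf).2 hkm, ?_, Nat.mod_lt _ hf,
      (Nat.div_add_mod' m _).symm⟩
    rw [Nat.factorial_succ] at hmk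
    have h1 : m / k.factorial < k + 1 := Nat.div_lt_of_lt_mul (by rw [mul_comm]; exact hmk)
    omega
  -- the boundary of the segment
  have hbd := bd_lex_eq (n := n) (m := c * k.factorial + r) (by omega)
  have hbd' : (bd (lexInit n (c * k.factorial + r)) : ℝ) + 2 * (Ef n (c * k.factorial + r) : ℝ) =
      (n.choose 2 : ℝ) * ((c * k.factorial + r : ℕ) : ℝ) := by exact_mod_cast hbd
  have hshift := gap_shift hkn hck hr.le
  obtain ⟨j, rfl⟩ : ∃ j, k = j + 1 := ⟨k - 1, by omega⟩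
  have hgap := gap_fine j r hr.le
  rw [← hshift] at hgap
  obtain ⟨M, hM⟩ : ∃ M : ℝ, M = ((c * (j + 1).factorial + r : ℕ) : ℝ) := ⟨_, rfl⟩
  obtain ⟨E, hE⟩ : ∃ E : ℝ, E = (Ef n (c * (j + 1).factorial + r) : ℝ) := ⟨_, rfl⟩
  obtain ⟨B, hB⟩ : ∃ B : ℝ, B = (bd (lexInit n (c * (j + 1).factorial + r)) : ℝ) := ⟨_, rfl⟩
  rw [← hM, ← hE] at hgap
  rw [← hB, ← hE, ← hM] at hbd'
  have hK : (0 : ℝ) < ((j + 1).factorial : ℝ) := by exact_mod_cast hf
  have hKk : ((j + 1).factorial : ℝ) = ((j : ℝ) + 1) * (j.factorial : ℝ) := by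
    rw [Nat.factorial_succ]; push_cast; ring
  obtain ⟨K, hKdef⟩ : ∃ K : ℝ, K = ((j + 1).factorial : ℝ) := ⟨_, rfl⟩
  rw [← hKdef] at hK hKk hgap
  obtain ⟨y, hy⟩ : ∃ y : ℝ, y = (r : ℝ) / K := ⟨_, rfl⟩
  have hry : (r : ℝ) = y * K := by rw [hy]; field_simp
  have hy0 : 0 ≤ y := by rw [hy]; positivity
  have hy1 : y ≤ 1 := by
    rw [hy, div_le_one hK, hKdef]
    exact_mod_cast hr.le
  have hMx : M = ((c : ℝ) + y) * K := by
    rw [hM]
    push_cast
    rw [← hKdef, hry]
    ring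
  obtain ⟨x, hx⟩ : ∃ x : ℝ, x = (c : ℝ) + y := ⟨_, rfl⟩
  rw [← hx] at hMx
  have hc1' : (1 : ℝ) ≤ c := by exact_mod_cast hc1
  have hj0 : (0 : ℝ) ≤ j := Nat.cast_nonneg j
  have hjf : (j.factorial : ℝ) = K / ((j : ℝ) + 1) := by rw [hKk]; field_simp
  -- the gap in the new variables
  have hloss : M ^ 2 / K + (((j + 1).choose 2 : ℝ) - 1) * M - 2 * E ≤
      K * (((((j + 1 : ℕ) : ℝ)) - 1) * (y * (1 - y)) + ((((j + 1 : ℕ) : ℝ)) - 1) / (4 * ((j + 1 : ℕ) : ℝ))) := by
    refine hgap.trans (le_of_eq ?_)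
    rw [hry, hjf]
    push_cast
    field_simp
    ring
  have hM2 : M ^ 2 / K = x ^ 2 * K := by rw [hMx]; field_simp
  have hxk : x ≤ ((j + 1 : ℕ) : ℝ) + 1 := by
    have h1 : (c : ℝ) ≤ ((j + 1 : ℕ) : ℝ) := by exact_mod_cast hck
    rw [hx]
    linarith
  have hx1 : 1 ≤ x := by rw [hx]; linarith
  have hX : M * ((n.choose 2 : ℝ) - ((j + 1).choose 2 : ℝ) + 1) - M ^ 2 / K =
      K * (x * ((n.choose 2 : ℝ) - ((j + 1).choose 2 : ℝ) + 1 - x)) := by
    rw [hM2, hMx]; ring
  rw [hx] at hX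
  refine ⟨j + 1, c, y, hk, hkn, ?_, hc1, hck, hy0, hy1, ?_, ?_⟩
  · exact hkm
  · rw [← hM, ← hKdef]
    exact hX
  · rw [← hM, ← hKdef, ← hB]
    linarith

/-- numbers: below the top level -/
private theorem Eleven_num {k c : ℕ} (hk : 1 ≤ k) (hc : 1 ≤ c) (hck : c ≤ k) {y : ℝ}
    (hy0 : 0 ≤ y) (hy1 : y ≤ 1) :
    11 * (((k : ℝ) - 1) * (y * (1 - y)) + ((k : ℝ) - 1) / (4 * k)) ≤
      ((c : ℝ) + y) * (2 * (k : ℝ) + 2 - ((c : ℝ) + y)) := by
  have hk1 : (1 : ℝ) ≤ k := by exact_mod_cast hk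
  have h2 : ((k : ℝ) - 1) / (4 * k) ≤ 1 / 4 := by
    rw [div_le_div_iff₀ (by linarith) (by norm_num)]
    linarith
  rcases Nat.lt_or_ge c 2 with h | h
  · have hc1 : c = 1 := by omega
    rw [hc1, Nat.cast_one]
    have h3 : 0 ≤ 2 - 9 * y + 11 * y ^ 2 := by nlinarith [sq_nonneg (22 * y - 9)]
    have h4 : 0 ≤ ((k : ℝ) - 1) * (2 - 9 * y + 11 * y ^ 2) := mul_nonneg (by linarith) h3
    nlinarith [mul_nonneg hy0 (sub_nonneg.2 hy1)]
  · have hc2 : (2 : ℝ) ≤ c := by exact_mod_cast h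
    have hck' : (c : ℝ) ≤ k := by exact_mod_cast hck
    have h1 : y * (1 - y) ≤ 1 / 4 := by nlinarith [sq_nonneg (2 * y - 1)]
    have h3 : ((k : ℝ) - 1) * (y * (1 - y)) ≤ ((k : ℝ) - 1) * (1 / 4) :=
      mul_le_mul_of_nonneg_left h1 (by linarith)
    have h4 : 0 ≤ ((c : ℝ) + y - 2) * (2 * (k : ℝ) - ((c : ℝ) + y)) :=
      mul_nonneg (by linarith) (by linarith)
    nlinarith

/-- sets of less than `(n-1)!` permutations, every `n` -/
theorem low_eleven (A : Finset (Perm (Fin n))) (hA : A.card < (n - 1).factorial) :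
    11 * bd (lexInit n A.card) ≤ 12 * bd A := by
  rcases Nat.eq_zero_or_pos A.card with h0 | h0
  · rw [h0]
    have h1 := bd_lex_eq (n := n) (m := 0) (Nat.zero_le _)
    rw [mul_zero] at h1
    omega
  · have hlt : A.card < n.factorial := lt_of_lt_of_le hA (Nat.factorial_le (Nat.sub_le n 1))
    obtain ⟨k, c, y, hk, hkn, hkm, hc, hck, hy0, hy1, hX, hL⟩ := seg_core h0 hlt
    have hkn2 : k + 2 ≤ n := by
      by_contra hcon
      have h1 : (n - 1).factorial ≤ k.factorial := Nat.factorial_le (by omega)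
      omega
    have h2 := bd_ge hk A
    have hch : (k.choose 2 : ℝ) + 2 * (k : ℝ) + 1 ≤ (n.choose 2 : ℝ) := by
      have h3 : (k + 1 + 1).choose 2 = (k + 1).choose 1 + (k + 1).choose 2 :=
        Nat.choose_succ_succ (k + 1) 1
      have h4 : (k + 1).choose 2 = k.choose 1 + k.choose 2 := Nat.choose_succ_succ k 1
      rw [Nat.choose_one_right] at h3 h4
      have h5 : (k + 1 + 1).choose 2 ≤ n.choose 2 := Nat.choose_le_choose 2 (by omega)
      have h6 : k.choose 2 + 2 * k + 1 ≤ n.choose 2 := by omega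
      exact_mod_cast h6
    have hK : (0 : ℝ) < (k.factorial : ℝ) := by exact_mod_cast Nat.factorial_pos k
    have h4 := Eleven_num hk hc hck hy0 hy1
    have h5 : ((c : ℝ) + y) * (2 * (k : ℝ) + 2 - ((c : ℝ) + y)) ≤
        ((c : ℝ) + y) * ((n.choose 2 : ℝ) - (k.choose 2 : ℝ) + 1 - ((c : ℝ) + y)) :=
      mul_le_mul_of_nonneg_left (by linarith) (by positivity)
    have h6 := mul_le_mul_of_nonneg_left (h4.trans h5) hK.le
    have h7 : ((11 * bd (lexInit n A.card) : ℕ) : ℝ) ≤ ((12 * bd A : ℕ) : ℝ) := by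
      push_cast
      rw [hX] at hL h2
      linarith
    exact_mod_cast h7

/-- sets of every size, if the segment has at most `(n-2) (n-2)! / 4` more boundary edges -/
theorem eleven_of (hn : 3 ≤ n) (h : ∀ B : Finset (Perm (Fin n)),
      4 * bd (lexInit n B.card) ≤ 4 * bd B + (n - 2) * (n - 2).factorial)
    (A : Finset (Perm (Fin n))) : 11 * bd (lexInit n A.card) ≤ 12 * bd A := by
  have hle : ∀ B : Finset (Perm (Fin n)), B.card ≤ n.factorial := by
    intro B
    have := Finset.card_le_univ B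
    rwa [Fintype.card_perm, Fintype.card_fin] at this
  have key : ∀ B : Finset (Perm (Fin n)), 2 * B.card ≤ n.factorial →
      11 * bd (lexInit n B.card) ≤ 12 * bd B := by
    intro B hB
    rcases Nat.lt_or_ge B.card (n - 1).factorial with h1 | h1
    · exact low_eleven B h1
    · have h2 := h B
      have h3 : (n - 1) * (n - 1).factorial ≤ bd B := by
        have h4 := bd_ge (k := n - 1) (by omega) B
        obtain ⟨N, rfl⟩ : ∃ N, n = N + 2 := ⟨n - 2, by omega⟩
        have e1 : N + 2 - 1 = N + 1 := by omega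
        rw [e1] at h1 h4 ⊢
        have hK : (0 : ℝ) < ((N + 1).factorial : ℝ) := by exact_mod_cast Nat.factorial_pos _
        have hch : ((N + 2).choose 2 : ℝ) = ((N + 1).choose 2 : ℝ) + (N + 1) := by
          have h5 : (N + 1 + 1).choose 2 = (N + 1).choose 1 + (N + 1).choose 2 :=
            Nat.choose_succ_succ (N + 1) 1
          rw [Nat.choose_one_right] at h5
          have h6 : (N + 2).choose 2 = (N + 1) + (N + 1).choose 2 := h5
          rw [h6]
          push_cast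
          ring
        obtain ⟨x, hx⟩ : ∃ x : ℝ, x = (B.card : ℝ) / ((N + 1).factorial : ℝ) := ⟨_, rfl⟩
        have hxm : (B.card : ℝ) = x * ((N + 1).factorial : ℝ) := by rw [hx]; field_simp
        have hx1 : 1 ≤ x := by
          rw [hx, le_div_iff₀ hK, one_mul]
          exact_mod_cast h1
        have hx2 : 2 * x ≤ (N : ℝ) + 2 := by
          have h7 : (2 : ℝ) * (B.card : ℝ) ≤ ((N + 2).factorial : ℝ) := by exact_mod_cast hB
          have h8 : ((N + 2).factorial : ℝ) = ((N : ℝ) + 2) * ((N + 1).factorial : ℝ) := by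
            rw [Nat.factorial_succ (N + 1)]
            push_cast
            ring
          rw [hxm, h8] at h7
          have h9 : (2 * x) * ((N + 1).factorial : ℝ) ≤ ((N : ℝ) + 2) * ((N + 1).factorial : ℝ) := by
            linarith
          exact le_of_mul_le_mul_right h9 hK
        have h10 : (B.card : ℝ) * (((N + 2).choose 2 : ℝ) - ((N + 1).choose 2 : ℝ) + 1) -
            (B.card : ℝ) ^ 2 / ((N + 1).factorial : ℝ) =
            ((N + 1).factorial : ℝ) * (x * ((N : ℝ) + 2 - x)) := by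
          rw [hch, hxm]
          field_simp
          ring
        rw [h10] at h4
        have h11 : (N : ℝ) + 1 ≤ x * ((N : ℝ) + 2 - x) := by
          have h12 : 0 ≤ (x - 1) * ((N : ℝ) + 1 - x) := mul_nonneg (by linarith) (by
            have : (1 : ℝ) ≤ N := by
              have : 1 ≤ N := by omega
              exact_mod_cast this
            linarith)
          nlinarith
        have h13 : ((N : ℝ) + 1) * ((N + 1).factorial : ℝ) ≤ (bd B : ℝ) := by
          refine le_trans ?_ h4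
          rw [mul_comm]
          exact mul_le_mul_of_nonneg_left h11 hK.le
        exact_mod_cast h13
      have h14 : 11 * ((n - 2) * (n - 2).factorial) ≤ 4 * ((n - 1) * (n - 1).factorial) := by
        obtain ⟨N, rfl⟩ : ∃ N, n = N + 2 := ⟨n - 2, by omega⟩
        have e1 : N + 2 - 1 = N + 1 := by omega
        have e2 : N + 2 - 2 = N := by omega
        rw [e1, e2, Nat.factorial_succ]
        have h15 : 11 * N ≤ 4 * ((N + 1) * (N + 1)) := by nlinarith [sq_nonneg ((N : ℤ) - 1)]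
        calc 11 * (N * N.factorial) = (11 * N) * N.factorial := by ring
          _ ≤ (4 * ((N + 1) * (N + 1))) * N.factorial := Nat.mul_le_mul_right _ h15
          _ = 4 * ((N + 1) * ((N + 1) * N.factorial)) := by ring
      omega
  rcases Nat.lt_or_ge n.factorial (2 * A.card) with h1 | h1
  · have hc : Aᶜ.card + A.card = n.factorial := by
      have h3 := Finset.card_add_card_compl A
      rw [Fintype.card_perm, Fintype.card_fin] at h3
      omega
    have h2 := key Aᶜ (by omega)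
    rwa [bd_compl, bd_lex_compl hc] at h2
  · exact key A h1

end Pool.H61.GB
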