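import Pool.Agent.H98.TA.EfGap
import Pool.Agent.H60.NM.LexE

set_option autoImplicit false

/-!
# The conjecture of Ben Efraim up to the factor 5/6

`five_six`: for every `n` and every set `A` of permutations of `n` elements the lexicographic segment
`L` of the same size satisfies `5 |∂L| ≤ 6 |∂A|`.

For `k! ≤ m ≤ (k+1)!` the lower bound `X = m (C(n,2) - C(k,2) + 1 - m / k!)` for the boundary of a set of
size `m` differs from the boundary of the segment by at most
`(k-1) r (k! - r) / k! + (k-1) (k-1)! / 4`, `r` the remainder of `m` modulo `k!`, and this is at most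
`X / 5` if `2 m ≤ n!`.
-/

open Finset Equiv Pool.H60.Transp Pool.H60.NM

namespace Pool.H61.GB

variable {n : ℕ}

/-- the boundary of a segment -/
theorem bd_lex_eq {m : ℕ} (hm : m ≤ n.factorial) :
    bd (lexInit n m) + 2 * Ef n m = n.choose 2 * m := by
  obtain ⟨X, hX1, hX2, hX3⟩ := exists_down_E n m hm
  have h2 := bd_add_D X
  have h3 := D_down X hX2
  rw [hX3] at h3
  have h4 := lexInit_eq X hX1 hX2
  rw [card_pairs, h3, hX1] at h2
  rw [h4]
  exact h2

/-- the boundary of the complementary segment -/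
theorem bd_lex_compl {m m' : ℕ} (hm : m + m' = n.factorial) :
    bd (lexInit n m) = bd (lexInit n m') := by
  obtain ⟨X, hX1, hX2, -⟩ := exists_down_E n m' (by omega)
  have hcard : (mirror Xᶜ).card = m := by
    rw [card_mirror, Finset.card_compl, Fintype.card_perm, Fintype.card_fin, hX1]
    omega
  rw [lexInit_eq (mirror Xᶜ) hcard (mirror_down hX2), bd_mirror, bd_compl, lexInit_eq X hX1 hX2]

/-- the lower bound for the boundary -/
theorem bd_ge {k : ℕ} (hk : 1 ≤ k) (A : Finset (Perm (Fin n))) :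
    (A.card : ℝ) * ((n.choose 2 : ℝ) - (k.choose 2 : ℝ) + 1) - (A.card : ℝ) ^ 2 / (k.factorial : ℝ) ≤
      (bd A : ℝ) := by
  have h1 := P_all k hk A
  unfold P at h1
  have h2 := bd_add_D A
  rw [card_pairs] at h2
  have h2' : (bd A : ℝ) + (D A : ℝ) = (n.choose 2 : ℝ) * A.card := by exact_mod_cast h2
  have hf : (0 : ℝ) < (k.factorial : ℝ) := by exact_mod_cast Nat.factorial_pos k
  have h3 : (D A : ℝ) + A.card ≤ (A.card : ℝ) ^ 2 / (k.factorial : ℝ) + (k.choose 2 : ℝ) * A.card := by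
    rw [div_add' _ _ _ hf.ne', le_div_iff₀ hf]
    nlinarith [h1]
  nlinarith [h2', h3]

/-- the gap on one level, the first term is explicit -/
theorem gap_fine (k r : ℕ) (hr : r ≤ (k + 1).factorial) :
    (r : ℝ) ^ 2 / ((k + 1).factorial : ℝ) + (((k + 1).choose 2 : ℝ) - 1) * r - 2 * (Ef (k + 1) r : ℝ) ≤
      (k : ℝ) * ((r : ℝ) * (((k + 1).factorial : ℝ) - r) / ((k + 1).factorial : ℝ)) +
        (k : ℝ) * (k.factorial : ℝ) / 4 := by
  have h1 := Pool.H98.TA.gap_le k r hr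
  have hk : (0 : ℝ) < (k.factorial : ℝ) := by exact_mod_cast Nat.factorial_pos _
  have hKk : ((k + 1).factorial : ℝ) = ((k : ℝ) + 1) * (k.factorial : ℝ) := by
    rw [Nat.factorial_succ]; push_cast; ring
  have hch : (((k + 1).choose 2 : ℕ) : ℝ) = (k.choose 2 : ℝ) + k := by
    have h3 : (k + 1).choose 2 = k.choose 1 + k.choose 2 := Nat.choose_succ_succ k 1
    rw [h3, Nat.choose_one_right]
    push_cast
    ring
  have h2 : (r : ℝ) ^ 2 / ((k + 1).factorial : ℝ) + (((k + 1).choose 2 : ℝ) - 1) * r =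
      ((r : ℝ) ^ 2 / (k.factorial : ℝ) + ((k.choose 2 : ℝ) - 1) * r) +
        (k : ℝ) * ((r : ℝ) * (((k + 1).factorial : ℝ) - r) / ((k + 1).factorial : ℝ)) := by
    rw [hch, hKk]
    field_simp
    ring
  rw [h2]
  linarith

/-- the gap does not depend on the multiple of `k!` -/
theorem gap_shift {k c r : ℕ} (hkn : k + 1 ≤ n) (hc : c ≤ k) (hr : r ≤ k.factorial) :
    ((c * k.factorial + r : ℕ) : ℝ) ^ 2 / (k.factorial : ℝ) +
      ((k.choose 2 : ℝ) - 1) * ((c * k.factorial + r : ℕ) : ℝ) -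
      2 * (Ef n (c * k.factorial + r) : ℝ) =
    (r : ℝ) ^ 2 / (k.factorial : ℝ) + ((k.choose 2 : ℝ) - 1) * r - 2 * (Ef k r : ℝ) := by
  have h1 := Ef_add (k := k) (n := n) (c := c) (r := r) hkn hc hr
  have hf : (0 : ℝ) < (k.factorial : ℝ) := by exact_mod_cast Nat.factorial_pos k
  have hcc : ((c * (c - 1) : ℕ) : ℝ) = (c : ℝ) * ((c : ℝ) - 1) := by
    rcases Nat.eq_zero_or_pos c with rfl | h
    · simp
    · rw [Nat.cast_mul, Nat.cast_sub h, Nat.cast_one]
  have h2 : (2 : ℝ) * (Ef n (c * k.factorial + r) : ℝ) = (c : ℝ) * ((c : ℝ) - 1) * (k.factorial : ℝ) +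
      c * ((k.factorial : ℝ) * (k.choose 2 : ℝ)) + 2 * (c * r) + 2 * (Ef k r : ℝ) := by
    rw [← hcc]
    exact_mod_cast h1
  rw [h2]
  push_cast
  field_simp
  ring

/-- numbers: the level below the top -/
private theorem Five_num1 {k : ℕ} (hk : 1 ≤ k) {x y : ℝ} (hx1 : 1 ≤ x) (hxk : x ≤ k + 1)
    (_ : 0 ≤ y) (_ : y ≤ 1) :
    5 * (((k : ℝ) - 1) * (y * (1 - y)) + ((k : ℝ) - 1) / (4 * k)) ≤ x * (2 * (k : ℝ) + 2 - x) := by
  have hk1 : (1 : ℝ) ≤ k := by exact_mod_cast hk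
  have h1 : y * (1 - y) ≤ 1 / 4 := by nlinarith [sq_nonneg (2 * y - 1)]
  have h2 : ((k : ℝ) - 1) / (4 * k) ≤ 1 / 4 := by
    rw [div_le_div_iff₀ (by linarith) (by norm_num)]
    linarith
  have h3 : ((k : ℝ) - 1) * (y * (1 - y)) ≤ ((k : ℝ) - 1) * (1 / 4) :=
    mul_le_mul_of_nonneg_left h1 (by linarith)
  have h4 : 0 ≤ (x - 1) * (2 * (k : ℝ) + 1 - x) := mul_nonneg (by linarith) (by linarith)
  nlinarith

/-- numbers: the top level, first digit `1` -/
private theorem Five_num2 {k : ℕ} (hk : 1 ≤ k) {y : ℝ} (hy0 : 0 ≤ y) (hy1 : y ≤ 1) :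
    5 * (((k : ℝ) - 1) * (y * (1 - y)) + ((k : ℝ) - 1) / (4 * k)) ≤ (1 + y) * ((k : ℝ) - y) := by
  have hk1 : (1 : ℝ) ≤ k := by exact_mod_cast hk
  obtain ⟨N, hN⟩ : ∃ N : ℝ, N = (k : ℝ) - 1 := ⟨_, rfl⟩
  have hN0 : 0 ≤ N := by linarith
  have hkN : (k : ℝ) = N + 1 := by linarith
  rw [hkN]
  have e1 : N + 1 - 1 = N := by ring
  rw [e1]
  have h1 : 5 * (N / (4 * (N + 1))) ≤ (N + 1) - 5 * N * (y * (1 - y)) + N * y - y ^ 2 := by
    rw [mul_div_assoc', div_le_iff₀ (by linarith)]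
    have h2 : N = 0 ∨ 1 ≤ N := by
      rcases Nat.lt_or_ge k 2 with h | h
      · left
        have : k = 1 := by omega
        rw [hN, this]
        norm_num
      · right
        have : (2 : ℝ) ≤ k := by exact_mod_cast h
        linarith
    rcases h2 with h2 | h2
    · rw [h2]
      nlinarith
    · have h3 : 0 < 5 * N - 1 := by linarith
      -- complete the square
      have h4 : (N ^ 2 + 4 * N - 1) ≤
          (5 * N - 1) * ((N + 1) - 5 * N * (y * (1 - y)) + N * y - y ^ 2) := by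
        nlinarith [sq_nonneg ((5 * N - 1) * y - 2 * N)]
      have h5 : 5 * N * (5 * N - 1) ≤ 4 * (N + 1) * (N ^ 2 + 4 * N - 1) := by
        nlinarith [mul_nonneg (mul_nonneg hN0 hN0) (sub_nonneg.2 h2), mul_nonneg hN0 (sub_nonneg.2 h2)]
      have h6 : (5 * N) * (5 * N - 1) ≤
          (((N + 1) - 5 * N * (y * (1 - y)) + N * y - y ^ 2) * (4 * (N + 1))) * (5 * N - 1) := by
        have h7 : 4 * (N + 1) * (N ^ 2 + 4 * N - 1) ≤
            4 * (N + 1) * ((5 * N - 1) * ((N + 1) - 5 * N * (y * (1 - y)) + N * y - y ^ 2)) :=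
          mul_le_mul_of_nonneg_left h4 (by linarith)
        linarith
      exact le_of_mul_le_mul_right h6 h3
  nlinarith [h1]

/-- numbers: the top level, first digit at least `2` -/
private theorem Five_num3 {k : ℕ} (hk : 3 ≤ k) {x y : ℝ} (hx1 : 2 ≤ x) (hxk : 2 * x ≤ k + 1)
    (_ : 0 ≤ y) (_ : y ≤ 1) :
    5 * (((k : ℝ) - 1) * (y * (1 - y)) + ((k : ℝ) - 1) / (4 * k)) ≤ x * ((k : ℝ) + 1 - x) := by
  have hk1 : (3 : ℝ) ≤ k := by exact_mod_cast hk
  have h1 : y * (1 - y) ≤ 1 / 4 := by nlinarith [sq_nonneg (2 * y - 1)]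
  have h2 : ((k : ℝ) - 1) / (4 * k) ≤ 1 / 4 := by
    rw [div_le_div_iff₀ (by linarith) (by norm_num)]
    linarith
  have h3 : ((k : ℝ) - 1) * (y * (1 - y)) ≤ ((k : ℝ) - 1) * (1 / 4) :=
    mul_le_mul_of_nonneg_left h1 (by linarith)
  have h4 : 0 ≤ (x - 2) * ((k : ℝ) - 1 - x) := mul_nonneg (by linarith) (by linarith)
  nlinarith

/-- the segment and the lower bound, `2 m ≤ n!` -/
theorem main_le {m : ℕ} (hm0 : 0 < m) (hm : 2 * m ≤ n.factorial) : ∃ k : ℕ, 1 ≤ k ∧
    5 * (bd (lexInit n m) : ℝ) ≤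
      6 * ((m : ℝ) * ((n.choose 2 : ℝ) - (k.choose 2 : ℝ) + 1) - (m : ℝ) ^ 2 / (k.factorial : ℝ)) := by
  classical
  -- the level
  obtain ⟨k, hk, hkm, hmk⟩ : ∃ k : ℕ, 1 ≤ k ∧ k.factorial ≤ m ∧ m < (k + 1).factorial := by
    have hex : ∃ j : ℕ, m < (j + 1).factorial :=
      ⟨m, lt_of_lt_of_le (Nat.lt_succ_self m) (Nat.self_le_factorial (m + 1))⟩
    have h1 := Nat.find_spec hex
    have h2 : 1 ≤ Nat.find hex := by
      by_contra hcon
      have h3 : Nat.find hex = 0 := by omega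
      rw [h3, zero_add, Nat.factorial_one] at h1
      omega
    refine ⟨Nat.find hex, h2, ?_, h1⟩
    have h3 := Nat.find_min hex (show Nat.find hex - 1 < Nat.find hex by omega)
    rw [Nat.sub_add_cancel h2] at h3
    omega
  have hkn : k + 1 ≤ n := by
    by_contra hcon
    have h1 : n.factorial ≤ k.factorial := Nat.factorial_le (by omega)
    omega
  refine ⟨k, hk, ?_⟩
  have hf : 0 < k.factorial := Nat.factorial_pos k
  obtain ⟨c, r, hc1, hck, hr, rfl⟩ : ∃ c r : ℕ, 1 ≤ c ∧ c ≤ k ∧ r < k.factorial ∧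
      m = c * k.factorial + r := by
    refine ⟨m / k.factorial, m % k.factorial, (Nat.one_le_div_iff hf).2 hkm, ?_, Nat.mod_lt _ hf,
      (Nat.div_add_mod' m _).symm⟩
    rw [Nat.factorial_succ] at hmk
    have h1 : m / k.factorial < k + 1 := Nat.div_lt_of_lt_mul (by rw [mul_comm]; exact hmk)
    omega
  -- the boundary of the segment
  have hbd := bd_lex_eq (n := n) (m := c * k.factorial + r) (by omega)
  have hbd' : (bd (lexInit n (c * k.factorial + r)) : ℝ) + 2 * (Ef n (c * k.factorial + r) : ℝ) =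
      (n.choose 2 : ℝ) * ((c * k.factorial + r : ℕ) : ℝ) := by exact_mod_cast hbd
  have hshift := gap_shift hkn hck hr.le
  obtain ⟨j, rfl⟩ : ∃ j, k = j + 1 := ⟨k - 1, by omega⟩
  have hgap := gap_fine j r hr.le
  rw [← hshift] at hgap
  obtain ⟨M, hM⟩ : ∃ M : ℝ, M = ((c * (j + 1).factorial + r : ℕ) : ℝ) := ⟨_, rfl⟩
  obtain ⟨E, hE⟩ : ∃ E : ℝ, E = (Ef n (c * (j + 1).factorial + r) : ℝ) := ⟨_, rfl⟩
  obtain ⟨B, hB⟩ : ∃ B : ℝ, B = (bd (lexInit n (c * (j + 1).factorial + r)) : ℝ) := ⟨_, rfl⟩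
  rw [← hM, ← hE] at hgap
  rw [← hB, ← hE, ← hM] at hbd'
  rw [← hB, ← hM]
  have hK : (0 : ℝ) < ((j + 1).factorial : ℝ) := by exact_mod_cast hf
  have hKk : ((j + 1).factorial : ℝ) = ((j : ℝ) + 1) * (j.factorial : ℝ) := by
    rw [Nat.factorial_succ]; push_cast; ring
  obtain ⟨K, hKdef⟩ : ∃ K : ℝ, K = ((j + 1).factorial : ℝ) := ⟨_, rfl⟩
  rw [← hKdef] at hK hKk hgap ⊢
  obtain ⟨y, hy⟩ : ∃ y : ℝ, y = (r : ℝ) / K := ⟨_, rfl⟩
  have hry : (r : ℝ) = y * K := by rw [hy]; field_simp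
  have hy0 : 0 ≤ y := by rw [hy]; positivity
  have hy1 : y ≤ 1 := by
    rw [hy, div_le_one hK, hKdef]
    exact_mod_cast hr.le
  have hMx : M = ((c : ℝ) + y) * K := by
    rw [hM]
    push_cast
    rw [← hKdef, hry]
    ring
  obtain ⟨x, hx⟩ : ∃ x : ℝ, x = (c : ℝ) + y := ⟨_, rfl⟩
  rw [← hx] at hMx
  have hc1' : (1 : ℝ) ≤ c := by exact_mod_cast hc1
  have hj0 : (0 : ℝ) ≤ j := Nat.cast_nonneg j
  have hjf : (j.factorial : ℝ) = K / ((j : ℝ) + 1) := by rw [hKk]; field_simp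
  -- the gap in the new variables
  have hloss : M ^ 2 / K + (((j + 1).choose 2 : ℝ) - 1) * M - 2 * E ≤
      K * (((((j + 1 : ℕ) : ℝ)) - 1) * (y * (1 - y)) + ((((j + 1 : ℕ) : ℝ)) - 1) / (4 * ((j + 1 : ℕ) : ℝ))) := by
    refine hgap.trans (le_of_eq ?_)
    rw [hry, hjf]
    push_cast
    field_simp
    ring
  have hM2 : M ^ 2 / K = x ^ 2 * K := by rw [hMx]; field_simp
  have hxk : x ≤ ((j + 1 : ℕ) : ℝ) + 1 := by
    have h1 : (c : ℝ) ≤ ((j + 1 : ℕ) : ℝ) := by exact_mod_cast hck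
    rw [hx]
    linarith
  have hx1 : 1 ≤ x := by rw [hx]; linarith
  -- it is enough to bound the gap by a fifth of the bound
  have hfin : 5 * (((((j + 1 : ℕ) : ℝ)) - 1) * (y * (1 - y)) +
      ((((j + 1 : ℕ) : ℝ)) - 1) / (4 * ((j + 1 : ℕ) : ℝ))) ≤
      x * ((n.choose 2 : ℝ) - ((j + 1).choose 2 : ℝ) + 1 - x) := by
    rcases Nat.lt_or_ge n (j + 3) with h | h
    · have hn : n = j + 1 + 1 := by omega
      have hch : (n.choose 2 : ℝ) = ((j + 1).choose 2 : ℝ) + ((j + 1 : ℕ) : ℝ) := by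
        have h3 : n.choose 2 = (j + 1).choose 1 + (j + 1).choose 2 := by
          rw [hn]; exact Nat.choose_succ_succ (j + 1) 1
        rw [h3, Nat.choose_one_right]
        push_cast
        ring
      have e1 : (n.choose 2 : ℝ) - ((j + 1).choose 2 : ℝ) + 1 - x = ((j + 1 : ℕ) : ℝ) + 1 - x := by
        rw [hch]; ring
      rw [e1]
      rcases Nat.lt_or_ge c 2 with hc2 | hc2
      · have hc : c = 1 := by omega
        have h4 := Five_num2 hk hy0 hy1
        have hx2 : x = 1 + y := by rw [hx, hc, Nat.cast_one]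
        rw [hx2]
        have e2 : ((j + 1 : ℕ) : ℝ) + 1 - (1 + y) = ((j + 1 : ℕ) : ℝ) - y := by ring
        rw [e2]
        exact h4
      · have hc2' : (2 : ℝ) ≤ c := by exact_mod_cast hc2
        have hx2 : 2 ≤ x := by rw [hx]; linarith
        have hx3 : 2 * x ≤ ((j + 1 : ℕ) : ℝ) + 1 := by
          have h5 : (2 : ℝ) * M ≤ (n.factorial : ℝ) := by
            rw [hM]; exact_mod_cast hm
          have h6 : (n.factorial : ℝ) = (((j + 1 : ℕ) : ℝ) + 1) * K := by
            rw [hn, Nat.factorial_succ (j + 1), hKdef]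
            push_cast
            ring
          rw [hMx, h6] at h5
          have h7 : (2 * x) * K ≤ (((j + 1 : ℕ) : ℝ) + 1) * K := by linarith
          exact le_of_mul_le_mul_right h7 hK
        have hj3 : 3 ≤ j + 1 := by
          have h8 : (3 : ℝ) ≤ ((j + 1 : ℕ) : ℝ) := by linarith
          exact_mod_cast h8
        exact Five_num3 hj3 hx2 hx3 hy0 hy1
    · have hch : ((j + 1).choose 2 : ℝ) + 2 * ((j + 1 : ℕ) : ℝ) + 1 ≤ (n.choose 2 : ℝ) := by
        have h3 : (j + 1 + 1 + 1).choose 2 = (j + 1 + 1).choose 1 + (j + 1 + 1).choose 2 :=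
          Nat.choose_succ_succ (j + 1 + 1) 1
        have h4 : (j + 1 + 1).choose 2 = (j + 1).choose 1 + (j + 1).choose 2 :=
          Nat.choose_succ_succ (j + 1) 1
        rw [Nat.choose_one_right] at h3 h4
        have h5 : (j + 1 + 1 + 1).choose 2 ≤ n.choose 2 := Nat.choose_le_choose 2 (by omega)
        have h6 : (j + 1).choose 2 + 2 * (j + 1) + 1 ≤ n.choose 2 := by omega
        exact_mod_cast h6
      have h4 := Five_num1 hk hx1 hxk hy0 hy1
      refine h4.trans (mul_le_mul_of_nonneg_left ?_ (by linarith))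
      linarith
  have hB2 : B = M * ((n.choose 2 : ℝ) - ((j + 1).choose 2 : ℝ) + 1) - M ^ 2 / K +
      (M ^ 2 / K + (((j + 1).choose 2 : ℝ) - 1) * M - 2 * E) := by linarith
  have hX : M * ((n.choose 2 : ℝ) - ((j + 1).choose 2 : ℝ) + 1) - M ^ 2 / K =
      K * (x * ((n.choose 2 : ℝ) - ((j + 1).choose 2 : ℝ) + 1 - x)) := by
    rw [hM2, hMx]; ring
  have h9 := mul_le_mul_of_nonneg_left hfin hK.le
  rw [hB2, hX]
  linarith

theorem five_six (A : Finset (Perm (Fin n))) :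
    5 * bd (lexInit n A.card) ≤ 6 * bd A := by
  have hle : ∀ B : Finset (Perm (Fin n)), B.card ≤ n.factorial := by
    intro B
    have := Finset.card_le_univ B
    rwa [Fintype.card_perm, Fintype.card_fin] at this
  have key : ∀ B : Finset (Perm (Fin n)), 2 * B.card ≤ n.factorial →
      5 * bd (lexInit n B.card) ≤ 6 * bd B := by
    intro B hB
    rcases Nat.eq_zero_or_pos B.card with h0 | h0
    · rw [h0]
      have h1 := bd_lex_eq (n := n) (m := 0) (Nat.zero_le _)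
      rw [mul_zero] at h1
      omega
    · obtain ⟨k, hk, h1⟩ := main_le h0 hB
      have h2 := bd_ge hk B
      have h3 : ((5 * bd (lexInit n B.card) : ℕ) : ℝ) ≤ ((6 * bd B : ℕ) : ℝ) := by
        push_cast
        linarith
      exact_mod_cast h3
  rcases Nat.lt_or_ge n.factorial (2 * A.card) with h | h
  · have hc : Aᶜ.card + A.card = n.factorial := by
      have h3 := Finset.card_add_card_compl A
      rw [Fintype.card_perm, Fintype.card_fin] at h3
      omega
    have h1 := key Aᶜ (by omega)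
    rwa [bd_compl, bd_lex_compl hc] at h1
  · exact key A h

end Pool.H61.GB
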